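import Mathlib

/-!
# Two arrangements of six planes with isomorphic filtered Varchenko-Gelfand algebras in
# characteristic two and different oriented matroids
-/

set_option autoImplicit false

namespace Pool.Agent.Results.MP_157dc7_co.SixPlanes

open Matrix

section Defs

variable {n l : ℕ}

/-- `α 0, …, α (n-1)` are the normal vectors of a real central arrangement of `n` distinct
hyperplanes. -/
def IsArrangement (α : Fin n → Fin l → ℝ) : Prop :=
  (∀ i, α i ≠ 0) ∧ ∀ i j, i ≠ j → {x : Fin l → ℝ | α i ⬝ᵥ x = 0} ≠ {x | α j ⬝ᵥ x = 0}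

/-- The complement of the hyperplanes. -/
def Compl (α : Fin n → Fin l → ℝ) : Set (Fin l → ℝ) := {x | ∀ i, α i ⬝ᵥ x ≠ 0}

/-- The chambers: the connected components of the complement. -/
abbrev Chamber (α : Fin n → Fin l → ℝ) : Type := ConnectedComponents (Compl α)

open Classical in
/-- The Heaviside function `x_i^+`: it is `1` on the chambers where the `i`-th form is positive. -/
noncomputable def heaviside (R : Type*) [CommRing R] (α : Fin n → Fin l → ℝ) (i : Fin n) :
    Chamber α → R :=
  fun c => if ∃ x : Compl α, ConnectedComponents.mk x = c ∧ 0 < α i ⬝ᵥ x.1 then 1 else 0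

/-- The degree filtration of the Varchenko-Gelfand algebra `Chamber α → R`. -/
def filtration (R : Type*) [CommRing R] (α : Fin n → Fin l → ℝ) (k : ℕ) :
    Submodule R (Chamber α → R) :=
  Submodule.span R {f | ∃ L : List (Fin n), L.length ≤ k ∧ f = (L.map (heaviside R α)).prod}

/-- The filtered Varchenko-Gelfand algebras over `R` are isomorphic. -/
def FilteredIso (R : Type*) [CommRing R] {n' l' : ℕ} (α : Fin n → Fin l → ℝ)
    (β : Fin n' → Fin l' → ℝ) : Prop :=
  ∃ φ : (Chamber α → R) ≃ₐ[R] (Chamber β → R),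
    ∀ k, (filtration R α k).map φ.toLinearMap = filtration R β k

/-- The covectors of the oriented matroid: the sign vectors of the forms at the points of the
space. -/
def covectors (α : Fin n → Fin l → ℝ) : Set (Fin n → SignType) :=
  {s | ∃ x : Fin l → ℝ, s = fun i => SignType.sign (α i ⬝ᵥ x)}

/-- The oriented matroids are isomorphic: their covectors agree after a relabelling `σ` of the
ground sets and a reorientation `ε`. -/
def OMIso {n' l' : ℕ} (α : Fin n → Fin l → ℝ) (β : Fin n' → Fin l' → ℝ) : Prop :=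
  ∃ (σ : Fin n ≃ Fin n') (ε : Fin n → SignType), (∀ i, ε i ≠ 0) ∧
    ∀ s : Fin n' → SignType, s ∈ covectors β ↔ (fun i => ε i * s (σ i)) ∈ covectors α

end Defs

section Chambers

variable {n l : ℕ} (α : Fin n → Fin l → ℝ)

/-- the sign vector of a point of the complement -/
noncomputable def sgn (x : Compl α) : Fin n → Bool := fun i => decide (0 < α i ⬝ᵥ x.1)

theorem continuous_form (i : Fin n) : Continuous fun x : Compl α => α i ⬝ᵥ x.1 := by
  unfold dotProduct
  exact continuous_finsetSum _ fun j _ =>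
    continuous_const.mul ((continuous_apply j).comp continuous_subtype_val)

theorem continuous_sgn : Continuous (sgn α) := by
  refine continuous_pi fun i => ?_
  rw [continuous_bool_rng true]
  have h1 : (fun x => sgn α x i) ⁻¹' {true} = {x : Compl α | 0 < α i ⬝ᵥ x.1} := by
    ext x
    simp [sgn]
  rw [h1]
  refine ⟨?_, isOpen_lt continuous_const (continuous_form α i)⟩
  have h2 : {x : Compl α | 0 < α i ⬝ᵥ x.1} = {x : Compl α | 0 ≤ α i ⬝ᵥ x.1} := by
    ext x
    constructor
    · intro h
      exact le_of_lt (show 0 < α i ⬝ᵥ x.1 from h)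
    · intro h
      exact lt_of_le_of_ne (show 0 ≤ α i ⬝ᵥ x.1 from h) (Ne.symm (x.2 i))
  rw [h2]
  exact isClosed_le continuous_const (continuous_form α i)

variable {α}

theorem mk_eq {x y : Compl α} (h : sgn α x = sgn α y) :
    (ConnectedComponents.mk x) = ConnectedComponents.mk y := by
  have h1 : JoinedIn (Compl α) x.1 y.1 := by
    apply JoinedIn.of_segment_subset
    rintro _ ⟨a, b, ha, hb, hab, rfl⟩ i
    have hx := x.2 i
    have hy := y.2 i
    have h2 := congrFun h i
    simp only [sgn, decide_eq_decide] at h2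
    rw [dotProduct_add, dotProduct_smul, dotProduct_smul, smul_eq_mul, smul_eq_mul]
    rcases lt_or_gt_of_ne hx with h3 | h3
    · have h4 : α i ⬝ᵥ y.1 < 0 := by
        rcases lt_or_gt_of_ne hy with h5 | h5
        · exact h5
        · exact absurd (h2.2 h5) (not_lt.2 h3.le)
      rcases eq_or_lt_of_le ha with h5 | h5
      · have : b = 1 := by linarith
        rw [← h5, this]
        linarith
      · nlinarith [mul_neg_of_pos_of_neg h5 h3, mul_nonpos_of_nonneg_of_nonpos hb h4.le]
    · have h4 := h2.1 h3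
      rcases eq_or_lt_of_le ha with h5 | h5
      · have : b = 1 := by linarith
        rw [← h5, this]
        linarith
      · nlinarith [mul_pos h5 h3, mul_nonneg hb h4.le]
  have h2 := h1.joined_subtype
  rw [ConnectedComponents.coe_eq_coe']
  exact pathComponent_subset_component y h2.symm

variable (α)

/-- The sign vector of a chamber. -/
noncomputable def csgn : Chamber α → (Fin n → Bool) := (continuous_sgn α).connectedComponentsLift

theorem csgn_mk (x : Compl α) : csgn α (ConnectedComponents.mk x) = sgn α x :=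
  Continuous.connectedComponentsLift_apply_coe _ x

theorem csgn_injective : Function.Injective (csgn α) := by
  intro c d h
  obtain ⟨x, rfl⟩ := ConnectedComponents.surjective_coe c
  obtain ⟨y, rfl⟩ := ConnectedComponents.surjective_coe d
  rw [csgn_mk, csgn_mk] at h
  exact mk_eq h

/-- `0, 1` in `R` -/
def b2r (R : Type*) [CommRing R] (b : Bool) : R := if b then 1 else 0

theorem heaviside_eq (R : Type*) [CommRing R] (i : Fin n) (c : Chamber α) :
    heaviside R α i c = b2r R (csgn α c i) := by
  obtain ⟨x, rfl⟩ := ConnectedComponents.surjective_coe c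
  rw [csgn_mk]
  unfold heaviside b2r
  by_cases h : 0 < α i ⬝ᵥ x.1
  · rw [if_pos ⟨x, rfl, h⟩, if_pos (by simpa [sgn] using h)]
  · rw [if_neg, if_neg (by simpa [sgn] using h)]
    rintro ⟨y, hy, hy2⟩
    have h1 := congrArg (csgn α) hy
    rw [csgn_mk, csgn_mk] at h1
    have h2 := congrFun h1 i
    simp only [sgn, decide_eq_decide] at h2
    exact h (h2.1 hy2)

end Chambers

section Filtration

variable {n l n' l' : ℕ} {R : Type*} [CommRing R] {α : Fin n → Fin l → ℝ}
  {β : Fin n' → Fin l' → ℝ}

theorem prod_mem {L : List (Fin n)} {k : ℕ} (h : L.length ≤ k) :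
    (L.map (heaviside R α)).prod ∈ filtration R α k := Submodule.subset_span ⟨L, h, rfl⟩

theorem filtration_mono {a b : ℕ} (h : a ≤ b) : filtration R α a ≤ filtration R α b :=
  Submodule.span_mono fun _ ⟨L, hL, hf⟩ => ⟨L, hL.trans h, hf⟩

theorem filtration_mul {a b : ℕ} {f g : Chamber α → R} (hf : f ∈ filtration R α a)
    (hg : g ∈ filtration R α b) : f * g ∈ filtration R α (a + b) := by
  induction hf using Submodule.span_induction with
  | mem f hf =>
    obtain ⟨L, hL, rfl⟩ := hf
    induction hg using Submodule.span_induction with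
    | mem g hg =>
      obtain ⟨L', hL', rfl⟩ := hg
      rw [← List.prod_append, ← List.map_append]
      exact prod_mem (by rw [List.length_append]; omega)
    | zero => rw [mul_zero]; exact Submodule.zero_mem _
    | add x y _ _ hx hy => rw [mul_add]; exact Submodule.add_mem _ hx hy
    | smul r x _ hx => rw [mul_smul_comm]; exact Submodule.smul_mem _ _ hx
  | zero => rw [zero_mul]; exact Submodule.zero_mem _
  | add x y _ _ hx hy => rw [add_mul]; exact Submodule.add_mem _ hx hy
  | smul r x _ hx => rw [smul_mul_assoc]; exact Submodule.smul_mem _ _ hx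

theorem one_mem (k : ℕ) : (1 : Chamber α → R) ∈ filtration R α k := by
  have := prod_mem (R := R) (α := α) (L := []) (k := k) (by simp)
  simpa using this

theorem heaviside_mem (i : Fin n) : heaviside R α i ∈ filtration R α 1 := by
  have := prod_mem (R := R) (α := α) (L := [i]) (k := 1) (by simp)
  simpa using this

theorem map_le (φ : (Chamber α → R) ≃ₐ[R] (Chamber β → R))
    (h : ∀ i, φ (heaviside R α i) ∈ filtration R β 1) (k : ℕ) :
    (filtration R α k).map φ.toLinearMap ≤ filtration R β k := by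
  rw [Submodule.map_le_iff_le_comap]
  refine Submodule.span_le.2 ?_
  rintro f ⟨L, hL, rfl⟩
  have key : ∀ L : List (Fin n), φ ((L.map (heaviside R α)).prod) ∈ filtration R β L.length := by
    intro L
    induction L with
    | nil => simpa using one_mem (R := R) (α := β) 0
    | cons i L ih =>
      rw [List.map_cons, List.prod_cons, map_mul, List.length_cons, add_comm]
      exact filtration_mul (h i) ih
  exact filtration_mono hL (key L)

/-- A bijection of chambers such that both directions pull Heaviside functions back to elements of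
the first filtration step induces an isomorphism of filtered algebras. -/
theorem filteredIso_of (e : Chamber β ≃ Chamber α)
    (h : ∀ i, heaviside R α i ∘ e ∈ filtration R β 1)
    (h' : ∀ i, heaviside R β i ∘ e.symm ∈ filtration R α 1) : FilteredIso R α β := by
  let φ : (Chamber α → R) ≃ₐ[R] (Chamber β → R) :=
    { toFun := fun f => f ∘ e
      invFun := fun g => g ∘ e.symm
      left_inv := fun f => by funext x; simp
      right_inv := fun g => by funext x; simp
      map_mul' := fun _ _ => rfl
      map_add' := fun _ _ => rfl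
      commutes' := fun _ => rfl }
  refine ⟨φ, fun k => le_antisymm (map_le φ h k) ?_⟩
  intro g hg
  have h2 := map_le φ.symm h' k ⟨g, hg, rfl⟩
  exact ⟨_, h2, φ.apply_symm_apply g⟩

end Filtration

/-! ### The two arrangements -/

/-- integer normal vectors -/
def A : Fin 6 → Fin 3 → ℤ :=
  ![![1, 0, 1], ![-1, 1, -1], ![-1, 0, 1], ![1, -1, 0], ![-1, 1, 1], ![-1, -1, -1]]

/-- integer normal vectors -/
def B : Fin 6 → Fin 3 → ℤ :=
  ![![0, 1, 1], ![1, -1, 0], ![1, 0, 0], ![0, 1, -1], ![-1, 0, 1], ![-1, 1, 1]]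

/-- the real normal vectors -/
def toReal (N : Fin 6 → Fin 3 → ℤ) : Fin 6 → Fin 3 → ℝ := fun i j => (N i j : ℝ)

/-- witnesses for the sign vectors of the chambers of `A` -/
def WA : List (Fin 3 → ℤ) := [![1, 2, -2], ![3, 4, -2], ![1, 0, 0], ![3, 2, -4], ![3, 2, -2],
  ![1, -2, 2], ![3, 4, 2], ![0, 2, -1], ![1, 2, 0], ![-1, 0, 2], ![-1, 2, 0], ![0, 2, 1],
  ![3, 2, 2], ![0, -1, 2], ![-1, 0, -2], ![-3, -2, -2], ![0, -2, -1], ![1, -2, 0], ![0, -1, -2],
  ![-1, -2, 0], ![0, -2, 1], ![-3, -4, -2], ![-1, 2, -2], ![-3, -2, 2], ![-3, -2, 4], ![-1, 0, 0],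
  ![-3, -4, 2], ![-1, -2, 2]]

/-- circuits of `A` -/
def CA : List (Fin 6 → ℤ) := [![-2, -1, 0, 0, 0, -1], ![2, 1, 0, 0, 0, 1], ![0, -1, 0, -2, -1, 0],
  ![0, 1, 0, 2, 1, 0], ![0, 1, 2, 0, -2, -1], ![0, -1, -2, 0, 2, 1]]

/-- witnesses for the sign vectors of the chambers of `B` -/
def WB : List (Fin 3 → ℤ) := [![-1, -3, -2], ![1, -1, 0], ![2, 0, 1], ![-1, 0, -2], ![-1, -2, -3],
  ![1, 2, -3], ![2, 3, -2], ![1, 0, -1], ![2, 1, 0], ![-4, -3, -2], ![-1, -2, 0], ![1, -3, 2],
  ![2, -2, 3], ![-4, -2, -3], ![4, 2, 3], ![-2, 2, -3], ![-1, 3, -2], ![1, 2, 0], ![4, 3, 2],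
  ![-2, -1, 0], ![-1, 0, 1], ![-2, -3, 2], ![-1, -2, 3], ![1, 2, 3], ![1, 0, 2], ![-2, 0, -1],
  ![-1, 1, 0], ![1, 3, 2]]

/-- circuits of `B` -/
def CB : List (Fin 6 → ℤ) := [![-1, 0, 1, 0, 0, 1], ![1, 0, -1, 0, 0, -1], ![0, -1, 0, -1, -1, 0],
  ![0, 1, 0, 1, 1, 0], ![0, -1, 1, 0, 1, -1], ![0, 1, -1, 0, -1, 1]]

/-- `w` has the sign vector `s` -/
def chk (N : Fin 6 → Fin 3 → ℤ) (s : Fin 6 → Bool) (w : Fin 3 → ℤ) : Bool :=
  decide (∀ i, if s i then 0 < N i ⬝ᵥ w else N i ⬝ᵥ w < 0)

/-- `c` is a dependency which is compatible with `s` -/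
def cir (N : Fin 6 → Fin 3 → ℤ) (s : Fin 6 → Bool) (c : Fin 6 → ℤ) : Bool :=
  decide ((∀ j, ∑ i, c i * N i j = 0) ∧ (∃ i, c i ≠ 0) ∧ ∀ i, if s i then 0 ≤ c i else c i ≤ 0)

/-- the table of sign vectors -/
def tab (N : Fin 6 → Fin 3 → ℤ) (W : List (Fin 3 → ℤ)) (s : Fin 6 → Bool) : Bool :=
  W.any (chk N s)

theorem tabA : ∀ s : Fin 6 → Bool, tab A WA s = true ∨ CA.any (cir A s) = true := by
  decide +kernel

theorem tabB : ∀ s : Fin 6 → Bool, tab B WB s = true ∨ CB.any (cir B s) = true := by
  decide +kernel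

theorem cast_dot (N : Fin 6 → Fin 3 → ℤ) (w : Fin 3 → ℤ) (i : Fin 6) :
    toReal N i ⬝ᵥ (fun j => (w j : ℝ)) = ((N i ⬝ᵥ w : ℤ) : ℝ) := by
  simp [toReal, dotProduct]

/-- The sign vectors of the chambers are those in the table. -/
theorem range_csgn {N : Fin 6 → Fin 3 → ℤ} {W : List (Fin 3 → ℤ)} {C : List (Fin 6 → ℤ)}
    (h : ∀ s : Fin 6 → Bool, tab N W s = true ∨ C.any (cir N s) = true) (s : Fin 6 → Bool) :
    (∃ c, csgn (toReal N) c = s) ↔ tab N W s = true := by
  constructor
  · rintro ⟨c, rfl⟩
    obtain ⟨x, rfl⟩ := ConnectedComponents.surjective_coe c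
    rw [csgn_mk]
    rcases h (sgn (toReal N) x) with h1 | h1
    · exact h1
    · exfalso
      rw [List.any_eq_true] at h1
      obtain ⟨c, -, hc⟩ := h1
      simp only [cir, decide_eq_true_eq] at hc
      obtain ⟨h2, ⟨i₀, h3⟩, h4⟩ := hc
      have h5 : ∑ i, (c i : ℝ) * (toReal N i ⬝ᵥ x.1) = 0 := by
        have h6 : ∀ i, (c i : ℝ) * (toReal N i ⬝ᵥ x.1) =
            ∑ j, ((c i * N i j : ℤ) : ℝ) * x.1 j := by
          intro i
          rw [dotProduct, Finset.mul_sum]
          refine Finset.sum_congr rfl fun j _ => ?_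
          simp only [toReal]
          push_cast
          ring
        simp only [h6]
        rw [Finset.sum_comm]
        refine Finset.sum_eq_zero fun j _ => ?_
        rw [← Finset.sum_mul, ← Int.cast_sum, h2 j]
        simp
      have h6 : ∀ i, 0 ≤ (c i : ℝ) * (toReal N i ⬝ᵥ x.1) := by
        intro i
        have h7 := h4 i
        by_cases h8 : 0 < toReal N i ⬝ᵥ x.1
        · rw [if_pos (by simpa [sgn] using h8)] at h7
          exact mul_nonneg (by exact_mod_cast h7) h8.le
        · rw [if_neg (by simpa [sgn] using h8)] at h7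
          exact mul_nonneg_of_nonpos_of_nonpos (by exact_mod_cast h7) (not_lt.1 h8)
      have h7 := (Finset.sum_eq_zero_iff_of_nonneg fun i _ => h6 i).1 h5 i₀ (Finset.mem_univ _)
      rcases mul_eq_zero.1 h7 with h8 | h8
      · exact h3 (by exact_mod_cast h8)
      · exact x.2 i₀ h8
  · intro h1
    unfold tab at h1
    rw [List.any_eq_true] at h1
    obtain ⟨w, -, hw⟩ := h1
    simp only [chk, decide_eq_true_eq] at hw
    have h2 : (fun j => (w j : ℝ)) ∈ Compl (toReal N) := by
      intro i
      rw [cast_dot]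
      have := hw i
      split_ifs at this
      · exact_mod_cast ne_of_gt this
      · exact_mod_cast ne_of_lt this
    refine ⟨ConnectedComponents.mk ⟨_, h2⟩, ?_⟩
    rw [csgn_mk]
    funext i
    unfold sgn
    simp only
    rw [cast_dot]
    have := hw i
    cases hs : s i
    · rw [hs, if_neg (by simp)] at this
      rw [decide_eq_false_iff_not, not_lt]
      exact_mod_cast this.le
    · rw [hs, if_pos rfl] at this
      rw [decide_eq_true_eq]
      exact_mod_cast this

/-- an affine map over the field with two elements -/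
def aff (c : Fin 6 → Bool) (M : Fin 6 → Fin 6 → Bool) (s : Fin 6 → Bool) : Fin 6 → Bool := fun i =>
  xor (c i) (xor (M i 0 && s 0) (xor (M i 1 && s 1) (xor (M i 2 && s 2) (xor (M i 3 && s 3)
    (xor (M i 4 && s 4) (M i 5 && s 5))))))

def cst : Fin 6 → Bool := ![true, false, false, false, false, false]

def M₁ : Fin 6 → Fin 6 → Bool :=
  ![![true, true, false, false, false, true], ![false, true, true, false, true, false],
    ![false, true, false, false, false, false], ![false, false, true, true, true, false],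
    ![false, false, true, false, false, false], ![false, false, false, false, false, true]]

def M₂ : Fin 6 → Fin 6 → Bool :=
  ![![true, false, true, false, false, true], ![false, false, true, false, false, false],
    ![false, false, false, false, true, false], ![false, true, true, true, false, false],
    ![false, true, true, false, true, false], ![false, false, false, false, false, true]]

theorem aff_inv₁ : ∀ s, aff cst M₂ (aff cst M₁ s) = s := by decide +kernel

theorem aff_inv₂ : ∀ s, aff cst M₁ (aff cst M₂ s) = s := by decide +kernel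

theorem aff_tab : ∀ s, tab A WA s = tab B WB (aff cst M₁ s) := by decide +kernel

section Char2

variable (R : Type*) [CommRing R] [CharP R 2]

theorem b2r_xor (a b : Bool) : b2r R (xor a b) = b2r R a + b2r R b := by
  have h2 : (1 : R) + 1 = 0 := by
    have := CharP.cast_eq_zero R 2
    rw [← this]
    norm_num
  cases a <;> cases b <;> simp [b2r, h2]

omit [CharP R 2] in
theorem b2r_and (a b : Bool) : b2r R (a && b) = b2r R a * b2r R b := by
  cases a <;> cases b <;> simp [b2r]

theorem b2r_aff (c : Fin 6 → Bool) (M : Fin 6 → Fin 6 → Bool) (s : Fin 6 → Bool) (i : Fin 6) :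
    b2r R (aff c M s i) = b2r R (c i) + ∑ j, b2r R (M i j) * b2r R (s j) := by
  unfold aff
  simp only [b2r_xor, b2r_and, Fin.sum_univ_six]
  ring

/-- affine combinations of Heaviside functions are in the first filtration step -/
theorem aff_mem (β : Fin 6 → Fin 3 → ℝ) (c : Fin 6 → Bool) (M : Fin 6 → Fin 6 → Bool)
    (i : Fin 6) : (fun d : Chamber β => b2r R (aff c M (csgn β d) i)) ∈ filtration R β 1 := by
  have h : (fun d : Chamber β => b2r R (aff c M (csgn β d) i)) =
      b2r R (c i) • (1 : Chamber β → R) + ∑ j, b2r R (M i j) • heaviside R β j := by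
    funext d
    rw [b2r_aff]
    simp only [Pi.add_apply, Pi.smul_apply, Finset.sum_apply, heaviside_eq, smul_eq_mul,
      Pi.one_apply, mul_one]
  rw [h]
  exact Submodule.add_mem _ (Submodule.smul_mem _ _ (one_mem 1))
    (Submodule.sum_mem _ fun j _ => Submodule.smul_mem _ _ (heaviside_mem j))

end Char2

/-- The chamber bijection. -/
theorem exists_equiv : ∃ e : Chamber (toReal B) ≃ Chamber (toReal A),
    (∀ d, csgn (toReal A) (e d) = aff cst M₂ (csgn (toReal B) d)) ∧
    ∀ c, csgn (toReal B) (e.symm c) = aff cst M₁ (csgn (toReal A) c) := by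
  have hA := fun s => range_csgn tabA s
  have hB := fun s => range_csgn tabB s
  have h1 : ∀ d : Chamber (toReal B), ∃ c : Chamber (toReal A),
      csgn (toReal A) c = aff cst M₂ (csgn (toReal B) d) := by
    intro d
    rw [hA, aff_tab, aff_inv₂, ← hB]
    exact ⟨d, rfl⟩
  have h2 : ∀ c : Chamber (toReal A), ∃ d : Chamber (toReal B),
      csgn (toReal B) d = aff cst M₁ (csgn (toReal A) c) := by
    intro c
    rw [hB, ← aff_tab, ← hA]
    exact ⟨c, rfl⟩
  choose f hf using h1
  choose g hg using h2
  refine ⟨⟨f, g, fun d => ?_, fun c => ?_⟩, hf, hg⟩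
  · apply csgn_injective
    rw [hg, hf, aff_inv₂]
  · apply csgn_injective
    rw [hf, hg, aff_inv₁]

theorem filteredIso (R : Type*) [CommRing R] [CharP R 2] :
    FilteredIso R (toReal A) (toReal B) := by
  obtain ⟨e, he, he'⟩ := exists_equiv
  refine filteredIso_of e (fun i => ?_) (fun i => ?_)
  · have : heaviside R (toReal A) i ∘ e =
        fun d => b2r R (aff cst M₂ (csgn (toReal B) d) i) := by
      funext d
      rw [Function.comp_apply, heaviside_eq, he]
    rw [this]
    exact aff_mem R _ _ _ _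
  · have : heaviside R (toReal B) i ∘ e.symm =
        fun d => b2r R (aff cst M₁ (csgn (toReal A) d) i) := by
      funext d
      rw [Function.comp_apply, heaviside_eq, he']
    rw [this]
    exact aff_mem R _ _ _ _

/-! ### The oriented matroids are different -/

/-- the third form vanishes wherever the first two do -/
def Dep {n l : ℕ} (α : Fin n → Fin l → ℝ) (i j k : Fin n) : Prop :=
  ∀ s ∈ covectors α, s i = 0 → s j = 0 → s k = 0

theorem Dep.map {n l n' l' : ℕ} {α : Fin n → Fin l → ℝ} {β : Fin n' → Fin l' → ℝ}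
    {σ : Fin n ≃ Fin n'} {ε : Fin n → SignType} (hε : ∀ i, ε i ≠ 0)
    (h : ∀ s : Fin n' → SignType, s ∈ covectors β ↔ (fun i => ε i * s (σ i)) ∈ covectors α)
    {i j k : Fin n} (hd : Dep α i j k) : Dep β (σ i) (σ j) (σ k) := by
  intro s hs h1 h2
  have h3 := hd _ ((h s).1 hs) (by simp only [h1, mul_zero]) (by simp only [h2, mul_zero])
  rcases mul_eq_zero.1 h3 with h4 | h4
  · exact absurd h4 (hε k)
  · exact h4

/-- integer determinant -/
def det3 (a b c : Fin 3 → ℤ) : ℤ :=
  c 0 * (a 1 * b 2 - a 2 * b 1) + c 1 * (a 2 * b 0 - a 0 * b 2) + c 2 * (a 0 * b 1 - a 1 * b 0)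

theorem det_of_dep {N : Fin 6 → Fin 3 → ℤ} {i j k : Fin 6} (h : Dep (toReal N) i j k) :
    det3 (N i) (N j) (N k) = 0 := by
  have h1 := h _ ⟨fun m => ((![N i 1 * N j 2 - N i 2 * N j 1, N i 2 * N j 0 - N i 0 * N j 2,
    N i 0 * N j 1 - N i 1 * N j 0] : Fin 3 → ℤ) m : ℝ), rfl⟩
  simp only [cast_dot, sign_eq_zero_iff, Int.cast_eq_zero] at h1
  have h2 := h1 (by simp [dotProduct, Fin.sum_univ_three]; ring)
    (by simp [dotProduct, Fin.sum_univ_three]; ring)
  rw [← h2]
  simp [dotProduct, Fin.sum_univ_three, det3]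

/-- two dependent triples of `B` with exactly one common element -/
def bad (i j k p q : Fin 6) : Bool :=
  (decide (i ≠ j) && decide (i ≠ k) && decide (i ≠ p) && decide (i ≠ q) && decide (j ≠ k) &&
    decide (j ≠ p) && decide (j ≠ q) && decide (k ≠ p) && decide (k ≠ q) && decide (p ≠ q)) &&
    (decide (det3 (B i) (B j) (B k) = 0) && decide (det3 (B i) (B p) (B q) = 0))

theorem noB : ∀ i j k p q : Fin 6, bad i j k p q = false := by
  decide +kernel

theorem depA1 : Dep (toReal A) 1 0 5 := by
  rintro _ ⟨x, rfl⟩ h1 h2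
  simp only [sign_eq_zero_iff] at h1 h2 ⊢
  simp [toReal, A, dotProduct, Fin.sum_univ_three] at h1 h2 ⊢
  linarith

theorem depA2 : Dep (toReal A) 1 3 4 := by
  rintro _ ⟨x, rfl⟩ h1 h2
  simp only [sign_eq_zero_iff] at h1 h2 ⊢
  simp [toReal, A, dotProduct, Fin.sum_univ_three] at h1 h2 ⊢
  linarith

theorem not_OMIso : ¬ OMIso (toReal A) (toReal B) := by
  rintro ⟨σ, ε, hε, h⟩
  have h1 := det_of_dep (depA1.map hε h)
  have h2 := det_of_dep (depA2.map hε h)
  have inj : ∀ {a b : Fin 6}, a ≠ b → σ a ≠ σ b := fun hab h => hab (σ.injective h)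
  have h3 := noB (σ 1) (σ 0) (σ 5) (σ 3) (σ 4)
  unfold bad at h3
  rw [decide_eq_true (inj (by decide)), decide_eq_true (inj (by decide)),
    decide_eq_true (inj (by decide)), decide_eq_true (inj (by decide)),
    decide_eq_true (inj (by decide)), decide_eq_true (inj (by decide)),
    decide_eq_true (inj (by decide)), decide_eq_true (inj (by decide)),
    decide_eq_true (inj (by decide)), decide_eq_true (inj (by decide)),
    decide_eq_true h1, decide_eq_true h2] at h3
  exact Bool.noConfusion h3

/-- integer points separating the hyperplanes -/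
def box : List (Fin 3 → ℤ) := [![0, 0, 1], ![0, 1, 0], ![1, 0, 0], ![0, 1, 1], ![0, 1, -1],
  ![1, 0, 1], ![1, 0, -1], ![1, 1, 0], ![1, -1, 0], ![1, 1, 1], ![1, 1, -1], ![1, -1, 1],
  ![1, -1, -1], ![1, 1, 2], ![1, 2, 1], ![2, 1, 1]]

theorem isArrangement {N : Fin 6 → Fin 3 → ℤ}
    (h : ∀ i j : Fin 6, i ≠ j → box.any (fun w => decide (N i ⬝ᵥ w = 0 ∧ N j ⬝ᵥ w ≠ 0)) = true) :
    IsArrangement (toReal N) := by
  have h' : ∀ i j : Fin 6, i ≠ j → ∃ w : Fin 3 → ℤ, N i ⬝ᵥ w = 0 ∧ N j ⬝ᵥ w ≠ 0 := by
    intro i j hij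
    have := h i j hij
    rw [List.any_eq_true] at this
    obtain ⟨w, -, hw⟩ := this
    exact ⟨w, of_decide_eq_true hw⟩
  constructor
  · intro j h0
    obtain ⟨i, hi⟩ : ∃ i : Fin 6, i ≠ j := exists_ne j
    obtain ⟨w, -, hw⟩ := h' i j hi
    apply hw
    have h1 := cast_dot N w j
    rw [h0, zero_dotProduct] at h1
    exact_mod_cast h1.symm
  · intro i j hij heq
    obtain ⟨w, hw1, hw2⟩ := h' i j hij
    have h1 : (fun m => (w m : ℝ)) ∈ {x : Fin 3 → ℝ | toReal N i ⬝ᵥ x = 0} := by
      change toReal N i ⬝ᵥ (fun m => (w m : ℝ)) = 0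
      rw [cast_dot, hw1, Int.cast_zero]
    rw [heq] at h1
    change toReal N j ⬝ᵥ (fun m => (w m : ℝ)) = 0 at h1
    rw [cast_dot] at h1
    exact hw2 (by exact_mod_cast h1)

theorem arrA : IsArrangement (toReal A) := isArrangement (by decide +kernel)

theorem arrB : IsArrangement (toReal B) := isArrangement (by decide +kernel)

/-- There are two central arrangements of six planes in `ℝ³` with non-isomorphic oriented matroids
whose filtered Varchenko-Gelfand algebras over every commutative ring of characteristic two are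
isomorphic. -/
theorem result.{u} : ∃ α β : Fin 6 → Fin 3 → ℝ, IsArrangement α ∧ IsArrangement β ∧ ¬ OMIso α β ∧
    ∀ (R : Type u) [CommRing R] [CharP R 2], FilteredIso R α β :=
  ⟨toReal A, toReal B, arrA, arrB, not_OMIso, fun R _ _ => filteredIso R⟩

end Pool.Agent.Results.MP_157dc7_co.SixPlanes
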